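import Pool.Agent.helper65.GD.SpecF

/-!
# Row XGR: the growth of the coefficients of a starlike function
-/

set_option autoImplicit false

namespace Pool.Agent.GD

open Finset

theorem XGR_sum (n : ℕ) : ∑ m ∈ range n, ((m : ℝ) + 1) = n * (n + 1) / 2 := by
  induction n with
  | zero => simp
  | succ k ih =>
    rw [Finset.sum_range_succ, ih]
    push_cast
    ring

theorem XGR : XGR_stmt := by
  intro β hβ n
  induction n using Nat.strong_induction_on with
  | _ n ih =>
    rcases Nat.eq_zero_or_pos n with h0 | h0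
    · subst h0
      rw [ex_zero]
      simp
    · have e := (ex_rec 2 β).2 n
      have h1 : ‖∑ m ∈ range n, β (n - m) * ex 2 β m‖ ≤ ∑ m ∈ range n, ((m : ℝ) + 1) := by
        refine (norm_sum_le _ _).trans (Finset.sum_le_sum fun m hm => ?_)
        rw [norm_mul]
        have a1 := hβ (n - m)
        have a2 := ih m (mem_range.1 hm)
        calc ‖β (n - m)‖ * ‖ex 2 β m‖ ≤ 1 * ‖ex 2 β m‖ :=
              mul_le_mul_of_nonneg_right a1 (norm_nonneg _)
          _ ≤ (m : ℝ) + 1 := by rw [one_mul]; exact a2
      rw [XGR_sum] at h1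
      have h2 : (n : ℝ) * ‖ex 2 β n‖ = 2 * ‖∑ m ∈ range n, β (n - m) * ex 2 β m‖ := by
        have h3 := congrArg (fun z : ℂ => ‖z‖) e
        simp only [norm_mul, Complex.norm_natCast] at h3
        rw [h3]
        norm_num
      have h4 : (n : ℝ) * ‖ex 2 β n‖ ≤ (n : ℝ) * ((n : ℝ) + 1) := by
        rw [h2]
        linarith
      have hn : (0 : ℝ) < n := by exact_mod_cast h0
      exact le_of_mul_le_mul_left h4 hn

end Pool.Agent.GD
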